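import Mathlib

/-!
An abstract criterion for the commuting bounded approximation property.
-/

set_option autoImplicit false

open Filter Topology

namespace Pool.Agent.W704.CB

variable {X : Type*} [NormedAddCommGroup X] [NormedSpace ℝ X]

/-- finite rank -/
def FinRank (T : X →L[ℝ] X) : Prop := FiniteDimensional ℝ (LinearMap.range (T : X →ₗ[ℝ] X))

lemma FinRank.comp_left {T : X →L[ℝ] X} (hT : FinRank T) (U : X →L[ℝ] X) : FinRank (U * T) := by
  unfold FinRank at *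
  have h : LinearMap.range ((U * T : X →L[ℝ] X) : X →ₗ[ℝ] X) =
      (LinearMap.range (T : X →ₗ[ℝ] X)).map (U : X →ₗ[ℝ] X) := by
    rw [← LinearMap.range_comp]; rfl
  rw [h]
  infer_instance

lemma FinRank.comp_right {T : X →L[ℝ] X} (hT : FinRank T) (U : X →L[ℝ] X) : FinRank (T * U) := by
  unfold FinRank at *
  refine Submodule.finiteDimensional_of_le (S₂ := LinearMap.range (T : X →ₗ[ℝ] X)) ?_
  rintro _ ⟨x, rfl⟩
  exact ⟨U x, rfl⟩

lemma FinRank.add {T U : X →L[ℝ] X} (hT : FinRank T) (hU : FinRank U) : FinRank (T + U) := by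
  unfold FinRank at *
  refine Submodule.finiteDimensional_of_le
    (S₂ := LinearMap.range (T : X →ₗ[ℝ] X) ⊔ LinearMap.range (U : X →ₗ[ℝ] X)) ?_
  rintro _ ⟨x, rfl⟩
  exact Submodule.add_mem_sup ⟨x, rfl⟩ ⟨x, rfl⟩

lemma FinRank.neg {T : X →L[ℝ] X} (hT : FinRank T) : FinRank (-T) := by
  unfold FinRank at *
  refine Submodule.finiteDimensional_of_le (S₂ := LinearMap.range (T : X →ₗ[ℝ] X)) ?_
  rintro _ ⟨x, rfl⟩
  exact ⟨-x, by simp⟩

lemma FinRank.sub {T U : X →L[ℝ] X} (hT : FinRank T) (hU : FinRank U) : FinRank (T - U) := by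
  rw [sub_eq_add_neg]
  exact hT.add hU.neg

/-- operators `U` with `‖U T_n - U‖ → 0` -/
def RGood (T : ℕ → X →L[ℝ] X) (U : X →L[ℝ] X) : Prop :=
  Tendsto (fun n => ‖U * T n - U‖) atTop (𝓝 0)

lemma RGood.comp_left {T : ℕ → X →L[ℝ] X} {U : X →L[ℝ] X} (hU : RGood T U) (V : X →L[ℝ] X) :
    RGood T (V * U) := by
  unfold RGood at *
  have h1 : Tendsto (fun n => ‖V‖ * ‖U * T n - U‖) atTop (𝓝 0) := by
    have := hU.const_mul ‖V‖
    rwa [mul_zero] at this
  refine squeeze_zero (fun _ => norm_nonneg _) (fun n => ?_) h1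
  have h2 : V * U * T n - V * U = V * (U * T n - U) := by rw [mul_sub, mul_assoc]
  rw [h2]
  exact norm_mul_le _ _

lemma RGood.add {T : ℕ → X →L[ℝ] X} {U V : X →L[ℝ] X} (hU : RGood T U) (hV : RGood T V) :
    RGood T (U + V) := by
  unfold RGood at *
  have h1 := hU.add hV
  rw [add_zero] at h1
  refine squeeze_zero (fun _ => norm_nonneg _) (fun n => ?_) h1
  have h2 : (U + V) * T n - (U + V) = (U * T n - U) + (V * T n - V) := by rw [add_mul]; abel
  rw [h2]
  exact norm_add_le _ _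

lemma RGood.neg {T : ℕ → X →L[ℝ] X} {U : X →L[ℝ] X} (hU : RGood T U) : RGood T (-U) := by
  unfold RGood at *
  refine hU.congr fun n => ?_
  have h2 : -U * T n - -U = -(U * T n - U) := by rw [neg_mul]; abel
  rw [h2, norm_neg]

lemma RGood.sub {T : ℕ → X →L[ℝ] X} {U V : X →L[ℝ] X} (hU : RGood T U) (hV : RGood T V) :
    RGood T (U - V) := by
  rw [sub_eq_add_neg]
  exact hU.add hV.neg

/-- strongly convergent bounded sequences converge in norm on finite rank operators -/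
lemma norm_left_tendsto {T : ℕ → X →L[ℝ] X} (hT1 : ∀ x, Tendsto (fun n => T n x) atTop (𝓝 x))
    {U : X →L[ℝ] X} (hU : FinRank U) :
    Tendsto (fun n => ‖T n * U - U‖) atTop (𝓝 0) := by
  unfold FinRank at hU
  -- a basis of the range
  set F := LinearMap.range (U : X →ₗ[ℝ] X) with hF
  let b := Module.finBasis ℝ F
  -- coordinate functionals
  let c : Fin (Module.finrank ℝ F) → (F →L[ℝ] ℝ) := fun i => LinearMap.toContinuousLinearMap (b.coord i)
  let U' : X →L[ℝ] F := U.codRestrict F (fun x => ⟨x, rfl⟩)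
  have hsum : ∀ x, U x = ∑ i, (c i (U' x)) • (b i : X) := by
    intro x
    have h1 := b.sum_repr (U' x)
    have h2 := congrArg (fun y : F => (y : X)) h1
    simp only [Submodule.coe_sum, Submodule.coe_smul] at h2
    exact h2.symm
  have hbound : ∀ n, ‖T n * U - U‖ ≤ ∑ i, (‖c i‖ * ‖U'‖) * ‖T n (b i : X) - (b i : X)‖ := by
    intro n
    refine ContinuousLinearMap.opNorm_le_bound _ (Finset.sum_nonneg fun i _ => by positivity) fun x => ?_
    have h1 : (T n * U - U) x = ∑ i, (c i (U' x)) • (T n (b i : X) - (b i : X)) := by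
      show T n (U x) - U x = _
      rw [hsum x, map_sum, ← Finset.sum_sub_distrib]
      refine Finset.sum_congr rfl fun i _ => ?_
      rw [map_smul, smul_sub]
    rw [h1, Finset.sum_mul]
    refine norm_sum_le_of_le _ fun i _ => ?_
    rw [norm_smul]
    have h2 : ‖c i (U' x)‖ ≤ ‖c i‖ * ‖U'‖ * ‖x‖ := by
      refine ((c i).le_opNorm _).trans ?_
      rw [mul_assoc]
      exact mul_le_mul_of_nonneg_left (U'.le_opNorm x) (norm_nonneg _)
    calc ‖c i (U' x)‖ * ‖T n (b i : X) - (b i : X)‖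
        ≤ (‖c i‖ * ‖U'‖ * ‖x‖) * ‖T n (b i : X) - (b i : X)‖ :=
          mul_le_mul_of_nonneg_right h2 (norm_nonneg _)
      _ = _ := by ring
  refine squeeze_zero (fun _ => norm_nonneg _) hbound ?_
  have h3 : Tendsto (fun n => ∑ i, (‖c i‖ * ‖U'‖) * ‖T n (b i : X) - (b i : X)‖) atTop
      (𝓝 (∑ i, (‖c i‖ * ‖U'‖) * 0)) := by
    refine tendsto_finsetSum _ fun i _ => ?_
    refine Tendsto.const_mul _ ?_
    rw [← tendsto_iff_norm_sub_tendsto_zero]
    exact hT1 _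
  simpa using h3

/-- a finite rank `Q` with `S Q = S`, of the form `V S` -/
lemma exists_right {S : X →L[ℝ] X} (hS : FinRank S) :
    ∃ V : X →L[ℝ] X, S * (V * S) = S := by
  unfold FinRank at hS
  set F := LinearMap.range (S : X →ₗ[ℝ] X) with hF
  let S' : X →ₗ[ℝ] F := (S : X →ₗ[ℝ] X).rangeRestrict
  obtain ⟨g, hg⟩ := S'.exists_rightInverse_of_surjective (LinearMap.range_rangeRestrict _)
  obtain ⟨P, hP⟩ := Submodule.ClosedComplemented.of_finiteDimensional F
  let V : X →L[ℝ] X := (LinearMap.toContinuousLinearMap g).comp P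
  refine ⟨V, ?_⟩
  ext x
  show S (V (S x)) = S x
  have h1 : P (S x) = ⟨S x, ⟨x, rfl⟩⟩ := hP ⟨S x, ⟨x, rfl⟩⟩
  have h2 : V (S x) = g ⟨S x, ⟨x, rfl⟩⟩ := by
    show g (P (S x)) = _
    rw [h1]
  rw [h2]
  have h3 : S' (g ⟨S x, ⟨x, rfl⟩⟩) = ⟨S x, ⟨x, rfl⟩⟩ := by
    have := LinearMap.congr_fun hg ⟨S x, ⟨x, rfl⟩⟩
    exact this
  exact congrArg (fun y : F => (y : X)) h3

/-- an operator `W` with `W T_N S = S` for large `N` -/
lemma exists_left {T : ℕ → X →L[ℝ] X} (hT1 : ∀ x, Tendsto (fun n => T n x) atTop (𝓝 x))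
    {S : X →L[ℝ] X} (hS : FinRank S) :
    ∃ (N : ℕ) (W : X →L[ℝ] X), (W * T N) * S = S := by
  classical
  have hS' := hS
  unfold FinRank at hS
  set F := LinearMap.range (S : X →ₗ[ℝ] X) with hF
  obtain ⟨P, hP⟩ := Submodule.ClosedComplemented.of_finiteDimensional F
  let P' : X →L[ℝ] X := F.subtypeL.comp P
  have hP'fin : FinRank P' := by
    unfold FinRank
    refine Submodule.finiteDimensional_of_le (S₂ := F) ?_
    rintro _ ⟨x, rfl⟩
    exact (P x).2
  have h1 := norm_left_tendsto hT1 hP'fin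
  have h2 := (h1.eventually (gt_mem_nhds (show (0 : ℝ) < 1 / 2 by norm_num))).exists
  obtain ⟨N, hN⟩ := h2
  -- T_N is injective on F
  have hinj : ∀ y ∈ F, ‖y‖ ≤ 2 * ‖T N y‖ := by
    intro y hy
    have h3 : P' y = y := by
      show ((P y : F) : X) = y
      have := hP ⟨y, hy⟩
      exact congrArg (fun z : F => (z : X)) this
    have h4 : (T N * P' - P') y = T N y - y := by
      show T N (P' y) - P' y = _
      rw [h3]
    have h5 := (T N * P' - P').le_opNorm y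
    rw [h4] at h5
    have h6 : ‖T N y - y‖ ≤ 1 / 2 * ‖y‖ :=
      h5.trans (mul_le_mul_of_nonneg_right hN.le (norm_nonneg _))
    have h7 : ‖y‖ ≤ ‖T N y‖ + ‖T N y - y‖ := by
      have := norm_sub_le (T N y) (T N y - y)
      rwa [sub_sub_cancel] at this
    linarith
  let TF : F →ₗ[ℝ] X := (T N : X →ₗ[ℝ] X).comp F.subtype
  have hker : LinearMap.ker TF = ⊥ := by
    rw [LinearMap.ker_eq_bot']
    intro y hy
    have h3 := hinj y y.2
    have h4 : T N (y : X) = 0 := hy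
    rw [h4, norm_zero, mul_zero] at h3
    exact Subtype.ext (norm_le_zero_iff.1 h3)
  obtain ⟨g, hg⟩ := TF.exists_leftInverse_of_injective hker
  -- make it continuous
  set G := LinearMap.range TF with hG
  have hGfin : FiniteDimensional ℝ G := by infer_instance
  obtain ⟨R, hR⟩ := Submodule.ClosedComplemented.of_finiteDimensional G
  let gG : G →L[ℝ] F := LinearMap.toContinuousLinearMap (g.comp G.subtype)
  let W : X →L[ℝ] X := F.subtypeL.comp (gG.comp R)
  refine ⟨N, W, ?_⟩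
  ext x
  show W (T N (S x)) = S x
  have h3 : R (T N (S x)) = ⟨T N (S x), ⟨⟨S x, ⟨x, rfl⟩⟩, rfl⟩⟩ :=
    hR ⟨T N (S x), ⟨⟨S x, ⟨x, rfl⟩⟩, rfl⟩⟩
  have h4 : W (T N (S x)) = ((g (T N (S x)) : F) : X) := by
    show ((g ((R (T N (S x)) : G) : X) : F) : X) = _
    rw [h3]
  rw [h4]
  have h5 : g (TF ⟨S x, ⟨x, rfl⟩⟩) = ⟨S x, ⟨x, rfl⟩⟩ :=
    LinearMap.congr_fun hg ⟨S x, ⟨x, rfl⟩⟩
  exact congrArg (fun y : F => (y : X)) h5

/-- the perturbation step -/
lemma step {T : ℕ → X →L[ℝ] X} (hTfin : ∀ n, FinRank (T n))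
    (hT1 : ∀ x, Tendsto (fun n => T n x) atTop (𝓝 x)) (hT2 : ∀ m, RGood T (T m))
    {S : X →L[ℝ] X} (hS : FinRank S) (hS2 : RGood T S) (n : ℕ) {ε : ℝ} (hε : 0 < ε) :
    ∃ (S' : X →L[ℝ] X) (N : ℕ), n ≤ N ∧ FinRank S' ∧ RGood T S' ∧ ‖S' - T N‖ ≤ ε ∧
      S' * S = S ∧ S * S' = S := by
  obtain ⟨V, hV⟩ := exists_right hS
  obtain ⟨N₀, W, hW⟩ := exists_left hT1 hS
  set Q := V * S with hQ
  set P := W * T N₀ with hP
  have hQfin : FinRank Q := hS.comp_left V
  have hPfin : FinRank P := (hTfin N₀).comp_left W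
  have hQr : RGood T Q := hS2.comp_left V
  have hPr : RGood T P := (hT2 N₀).comp_left W
  have hlim1 := norm_left_tendsto hT1 hPfin
  have hlim2 : Tendsto (fun n => ‖T n * P - P‖ + ‖Q * T n - Q‖ * (1 + ‖P‖)) atTop
      (𝓝 (0 + 0 * (1 + ‖P‖))) := hlim1.add (Tendsto.mul_const _ hQr)
  rw [zero_mul, add_zero] at hlim2
  obtain ⟨N, hN1, hN2⟩ := ((hlim2.eventually (gt_mem_nhds hε)).and (eventually_ge_atTop n)).exists
  set R : X →L[ℝ] X := 1 - T N with hR
  set U : X →L[ℝ] X := R * P + Q * R - Q * R * P with hU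
  have hRP : R * P = P - T N * P := by rw [hR, sub_mul, one_mul]
  have hQR : Q * R = Q - Q * T N := by rw [hR, mul_sub, mul_one]
  refine ⟨T N + U, N, hN2, ?_, ?_, ?_, ?_, ?_⟩
  · exact (hTfin N).add (((hPfin.comp_left R).add (hQfin.comp_right R)).sub (hPfin.comp_left (Q * R)))
  · have h1 : RGood T (R * P) := hPr.comp_left R
    have h2 : RGood T (Q * R) := by
      rw [hQR]
      exact hQr.sub ((hT2 N).comp_left Q)
    have h3 : RGood T (Q * R * P) := hPr.comp_left (Q * R)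
    exact (hT2 N).add ((h1.add h2).sub h3)
  · have h1 : T N + U - T N = U := by abel
    rw [h1, hU]
    have h2 : ‖R * P‖ = ‖T N * P - P‖ := by rw [hRP, norm_sub_rev]
    have h3 : ‖Q * R‖ = ‖Q * T N - Q‖ := by rw [hQR, norm_sub_rev]
    calc ‖R * P + Q * R - Q * R * P‖ ≤ ‖R * P + Q * R‖ + ‖Q * R * P‖ := norm_sub_le _ _
      _ ≤ (‖R * P‖ + ‖Q * R‖) + ‖Q * R‖ * ‖P‖ := add_le_add (norm_add_le _ _) (norm_mul_le _ _)
      _ = ‖T N * P - P‖ + ‖Q * T N - Q‖ * (1 + ‖P‖) := by rw [h2, h3]; ring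
      _ ≤ ε := hN1.le
  · -- S' S = S
    have hPS : P * S = S := hW
    have h1 : (T N + U) * S = T N * S + R * (P * S) + Q * R * S - Q * R * (P * S) := by
      rw [hU]; noncomm_ring
    rw [h1, hPS, hR]; noncomm_ring
  · have hSQ : S * Q = S := hV
    have h1 : S * (T N + U) = S * T N + S * R * P + (S * Q) * R - (S * Q) * R * P := by
      rw [hU]; noncomm_ring
    rw [h1, hSQ, hR]; noncomm_ring

/-- **Abstract criterion.** -/
theorem commuting_of_asymptotic {T : ℕ → X →L[ℝ] X} (hTfin : ∀ n, FinRank (T n))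
    {C : ℝ} (hTb : ∀ n, ‖T n‖ ≤ C)
    (hT1 : ∀ x, Tendsto (fun n => T n x) atTop (𝓝 x)) (hT2 : ∀ m, RGood T (T m)) :
    ∃ S : ℕ → X →L[ℝ] X, (∀ n, FinRank (S n)) ∧ (∀ n, ‖S n‖ ≤ C + 1) ∧
      (∀ x, Tendsto (fun n => S n x) atTop (𝓝 x)) ∧
      (∀ m n, m < n → S n * S m = S m ∧ S m * S n = S m) := by
  classical
  have hstep := fun (S : {S : X →L[ℝ] X // FinRank S ∧ RGood T S}) (n : ℕ) =>
    step hTfin hT1 hT2 S.2.1 S.2.2 n (ε := 1 / ((n : ℝ) + 1)) (by positivity)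
  choose f g hg1 hg2 hg3 hg4 hg5 hg6 using hstep
  let Sq : ℕ → {S : X →L[ℝ] X // FinRank S ∧ RGood T S} := fun n =>
    Nat.rec (motive := fun _ => {S : X →L[ℝ] X // FinRank S ∧ RGood T S})
      ⟨T 0, hTfin 0, hT2 0⟩ (fun k S => ⟨f S k, hg2 S k, hg3 S k⟩) n
  have hSq : ∀ n, (Sq (n + 1) : X →L[ℝ] X) = f (Sq n) n := fun n => rfl
  refine ⟨fun n => Sq n, fun n => (Sq n).2.1, ?_, ?_, ?_⟩
  · intro n
    cases n with
    | zero =>
      show ‖T 0‖ ≤ C + 1
      linarith [hTb 0]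
    | succ n =>
      show ‖((Sq (n + 1) : X →L[ℝ] X))‖ ≤ C + 1
      rw [hSq]
      have h1 := hg4 (Sq n) n
      have h2 := hTb (g (Sq n) n)
      have h3 : ‖f (Sq n) n‖ ≤ ‖f (Sq n) n - T (g (Sq n) n)‖ + ‖T (g (Sq n) n)‖ := by
        have := norm_add_le (f (Sq n) n - T (g (Sq n) n)) (T (g (Sq n) n))
        rwa [sub_add_cancel] at this
      have h4 : 1 / ((n : ℝ) + 1) ≤ 1 := by
        rw [div_le_one (by positivity)]
        linarith [Nat.cast_nonneg (α := ℝ) n]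
      linarith
  · intro x
    rw [← tendsto_add_atTop_iff_nat 1]
    have h1 : Tendsto (fun n => T (g (Sq n) n) x) atTop (𝓝 x) := by
      refine (hT1 x).comp ?_
      exact tendsto_atTop_mono (fun n => hg1 (Sq n) n) tendsto_id
    have h2 : Tendsto (fun n => (f (Sq n) n - T (g (Sq n) n)) x) atTop (𝓝 0) := by
      rw [tendsto_zero_iff_norm_tendsto_zero]
      have h3 : Tendsto (fun n : ℕ => 1 / ((n : ℝ) + 1) * ‖x‖) atTop (𝓝 (0 * ‖x‖)) :=
        tendsto_one_div_add_atTop_nhds_zero_nat.mul_const _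
      rw [zero_mul] at h3
      refine squeeze_zero (fun _ => norm_nonneg _) (fun n => ?_) h3
      exact (ContinuousLinearMap.le_opNorm _ _).trans
        (mul_le_mul_of_nonneg_right (hg4 (Sq n) n) (norm_nonneg _))
    have h3 := h2.add h1
    rw [zero_add] at h3
    refine h3.congr fun n => ?_
    show (f (Sq n) n - T (g (Sq n) n)) x + T (g (Sq n) n) x = (Sq (n + 1) : X →L[ℝ] X) x
    rw [hSq, ContinuousLinearMap.sub_apply, sub_add_cancel]
  · intro m n hmn
    induction n with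
    | zero => exact absurd hmn (Nat.not_lt_zero _)
    | succ n ih =>
      show (Sq (n + 1) : X →L[ℝ] X) * Sq m = Sq m ∧ (Sq m : X →L[ℝ] X) * Sq (n + 1) = Sq m
      rw [hSq]
      rcases Nat.lt_succ_iff_lt_or_eq.1 hmn with h | h
      · obtain ⟨h1, h2⟩ := ih h
        have h1' : (Sq n : X →L[ℝ] X) * Sq m = Sq m := h1
        have h2' : (Sq m : X →L[ℝ] X) * Sq n = Sq m := h2
        have h5 := hg5 (Sq n) n
        have h6 := hg6 (Sq n) n
        constructor
        · rw [← h1', ← mul_assoc, h5]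
        · rw [← h2', mul_assoc, h6]
      · subst h
        exact ⟨hg5 (Sq m) m, hg6 (Sq m) m⟩

end Pool.Agent.W704.CB
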