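import Mathlib

/-!
A greedy version of Auerbach's lemma for bounded subsets of a finite dimensional space.
-/

set_option autoImplicit false

open Filter Topology

namespace Pool.Agent.W704.CB

variable (E : Type*) [NormedAddCommGroup E] [NormedSpace ℝ E] [FiniteDimensional ℝ E]

/-- every bounded set has a system of at most `n` of its elements with uniformly bounded
coordinate functionals -/
theorem exists_coord (n : ℕ) : ∃ C : ℝ, 0 ≤ C ∧ ∀ U : Set E, U.Nonempty → Bornology.IsBounded U →
    Module.finrank ℝ (Submodule.span ℝ U) ≤ n →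
    ∃ (u : Fin n → E) (ω : Fin n → (E →L[ℝ] ℝ)), (∀ i, u i ∈ U) ∧
      ∀ x ∈ U, x = ∑ i, ω i x • u i ∧ ∀ i, |ω i x| ≤ C := by
  classical
  induction n with
  | zero =>
    refine ⟨0, le_rfl, fun U _ _ hr => ⟨fun i => i.elim0, fun i => i.elim0, fun i => i.elim0,
      fun x hx => ⟨?_, fun i => i.elim0⟩⟩⟩
    have h1 : Submodule.span ℝ U = ⊥ := by
      rw [← Submodule.finrank_eq_zero (R := ℝ)]
      omega
    have h2 : x ∈ Submodule.span ℝ U := Submodule.subset_span hx
    rw [h1, Submodule.mem_bot] at h2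
    rw [h2]
    simp
  | succ n ih =>
    obtain ⟨C, hC, ih⟩ := ih
    refine ⟨2 + 2 * n * C + C, by positivity, fun U hU hb hr => ?_⟩
    by_cases hz : ∀ x ∈ U, x = 0
    · obtain ⟨u₀, hu₀⟩ := hU
      refine ⟨fun _ => u₀, fun _ => 0, fun _ => hu₀, fun x hx => ⟨?_, fun i => ?_⟩⟩
      · rw [hz x hx]; simp
      · simp; positivity
    push Not at hz
    obtain ⟨x₀, hx₀, hx₀'⟩ := hz
    -- a nearly longest element
    obtain ⟨B, hB⟩ := hb.exists_norm_le
    have hbdd : BddAbove ((fun x : E => ‖x‖) '' U) := ⟨B, by rintro _ ⟨x, hx, rfl⟩; exact hB x hx⟩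
    set s := sSup ((fun x : E => ‖x‖) '' U) with hs
    have hle : ∀ x ∈ U, ‖x‖ ≤ s := fun x hx => le_csSup hbdd ⟨x, hx, rfl⟩
    have hspos : 0 < s := lt_of_lt_of_le (norm_pos_iff.2 hx₀') (hle x₀ hx₀)
    obtain ⟨_, ⟨u₀, hu₀, rfl⟩, hu₀s⟩ := exists_lt_of_lt_csSup (hU.image _)
      (show s / 2 < s by linarith)
    have hu₀s' : s / 2 < ‖u₀‖ := hu₀s
    have hu₀pos : 0 < ‖u₀‖ := by linarith
    obtain ⟨g₀, hg₀, hg₀'⟩ := exists_dual_vector ℝ u₀ hu₀pos.ne'
    let g : E →L[ℝ] ℝ := ‖u₀‖⁻¹ • g₀
    have hgu : g u₀ = 1 := by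
      show ‖u₀‖⁻¹ • g₀ u₀ = 1
      rw [hg₀', smul_eq_mul]
      exact inv_mul_cancel₀ hu₀pos.ne'
    have hgb : ∀ x ∈ U, |g x| ≤ 2 := by
      intro x hx
      show |‖u₀‖⁻¹ • g₀ x| ≤ 2
      rw [smul_eq_mul, abs_mul, abs_of_pos (inv_pos.2 hu₀pos), inv_mul_le_iff₀ hu₀pos]
      have h1 := g₀.le_opNorm x
      rw [hg₀, one_mul, Real.norm_eq_abs] at h1
      have h2 := hle x hx
      linarith
    let π : E →L[ℝ] E := ContinuousLinearMap.id ℝ E - g.smulRight u₀
    have hπ : ∀ x, π x = x - g x • u₀ := fun x => rfl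
    set U' : Set E := π '' U with hU'
    have hU'b : Bornology.IsBounded U' := π.lipschitz.isBounded_image hb
    have hgU' : ∀ y ∈ Submodule.span ℝ U', g y = 0 := by
      intro y hy
      have h1 : Submodule.span ℝ U' ≤ LinearMap.ker (g : E →ₗ[ℝ] ℝ) := by
        rw [Submodule.span_le]
        rintro _ ⟨x, -, rfl⟩
        show g (π x) = 0
        rw [hπ, map_sub, map_smul, hgu, smul_eq_mul, mul_one, sub_self]
      exact h1 hy
    have hlt : Submodule.span ℝ U' < Submodule.span ℝ U := by
      rw [SetLike.lt_iff_le_and_exists]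
      refine ⟨?_, u₀, Submodule.subset_span hu₀, fun h => ?_⟩
      · rw [Submodule.span_le]
        rintro _ ⟨x, hx, rfl⟩
        rw [hπ]
        exact Submodule.sub_mem _ (Submodule.subset_span hx)
          (Submodule.smul_mem _ _ (Submodule.subset_span hu₀))
      · have := hgU' u₀ h
        rw [hgu] at this
        exact one_ne_zero this
    have hfr := Submodule.finrank_lt_finrank_of_lt hlt
    obtain ⟨u', ω', hu', hω'⟩ := ih U' (hU.image _) hU'b (by omega)
    choose y hyU hyu using hu'
    refine ⟨Fin.cons u₀ y, Fin.cons (g - ∑ i, g (y i) • (ω' i).comp π) (fun i => (ω' i).comp π),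
      ?_, ?_⟩
    · intro i
      refine Fin.cases ?_ (fun j => ?_) i
      · exact hu₀
      · exact hyU j
    · intro x hx
      obtain ⟨h1, h2⟩ := hω' (π x) ⟨x, hx, rfl⟩
      constructor
      · rw [Fin.sum_univ_succ]
        simp only [Fin.cons_zero, Fin.cons_succ, ContinuousLinearMap.comp_apply]
        have h3 : (g - ∑ i, g (y i) • (ω' i).comp π) x = g x - ∑ i, g (y i) * ω' i (π x) := by
          simp [sub_apply, sum_apply]
        rw [h3]
        have h4 : π x = ∑ i, (ω' i (π x) • y i - (g (y i) * ω' i (π x)) • u₀) := by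
          conv_lhs => rw [h1]
          refine Finset.sum_congr rfl fun i _ => ?_
          rw [← hyu i, hπ (y i), smul_sub, smul_smul, mul_comm (g (y i))]
        rw [Finset.sum_sub_distrib, ← Finset.sum_smul] at h4
        have h5 : x = g x • u₀ + π x := by rw [hπ]; abel
        conv_lhs => rw [h5, h4]
        rw [sub_smul]
        abel
      · intro i
        refine Fin.cases ?_ (fun j => ?_) i
        · simp only [Fin.cons_zero]
          have h3 : (g - ∑ i, g (y i) • (ω' i).comp π) x = g x - ∑ i, g (y i) * ω' i (π x) := by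
            simp [sub_apply, sum_apply]
          rw [h3]
          have h4 : |∑ i, g (y i) * ω' i (π x)| ≤ ∑ _i : Fin n, 2 * C := by
            refine (Finset.abs_sum_le_sum_abs _ _).trans (Finset.sum_le_sum fun i _ => ?_)
            rw [abs_mul]
            exact mul_le_mul (hgb _ (hyU i)) (h2 i) (abs_nonneg _) (by norm_num)
          rw [Finset.sum_const, Finset.card_univ, Fintype.card_fin, nsmul_eq_mul] at h4
          have h5 := abs_sub (g x) (∑ i, g (y i) * ω' i (π x))
          have h6 := hgb x hx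
          nlinarith
        · simp only [Fin.cons_succ, ContinuousLinearMap.comp_apply]
          have h3 := h2 j
          have h4 : 0 ≤ 2 * (n : ℝ) * C := by positivity
          linarith

end Pool.Agent.W704.CB
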