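import Mathlib

/-!
Smooth partitions of unity on compact subsets of a finite dimensional space at a given scale.
-/

set_option autoImplicit false

open Filter Topology Metric

namespace Pool.Agent.W704.CB

variable {E : Type} [NormedAddCommGroup E] [NormedSpace ℝ E] [FiniteDimensional ℝ E]

/-- a maximal `r`-separated subset -/
lemma exists_net (K : Set E) (hK : IsCompact K) {r : ℝ} (hr : 0 < r) :
    ∃ N : Finset K, (∀ v ∈ N, ∀ w ∈ N, v ≠ w → r ≤ ‖(v : E) - w‖) ∧
      ∀ x : K, ∃ v ∈ N, ‖(x : E) - v‖ < r := by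
  classical
  let P : Finset K → Prop := fun s => ∀ v ∈ s, ∀ w ∈ s, v ≠ w → r ≤ ‖(v : E) - w‖
  obtain ⟨t, htK, htfin, htcov⟩ := hK.finite_cover_balls (show 0 < r / 2 by positivity)
  have hbound : ∀ s, P s → s.card ≤ htfin.toFinset.card := by
    intro s hs
    have hc : ∀ x : K, ∃ c ∈ t, dist (x : E) c < r / 2 := by
      intro x
      obtain ⟨c, hc, hxc⟩ := Set.mem_iUnion₂.1 (htcov x.2)
      exact ⟨c, hc, hxc⟩
    choose c hct hcd using hc
    refine Finset.card_le_card_of_injOn c (fun x _ => by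
      rw [Finset.mem_coe, Set.Finite.mem_toFinset]; exact hct x) ?_
    intro x hx y hy hxy
    by_contra hne
    have h1 := hs x hx y hy hne
    have h2 := hcd x
    have h3 := hcd y
    rw [← hxy] at h3
    have h4 := dist_triangle_right (x : E) y (c x)
    rw [dist_eq_norm (x : E) y] at h4
    linarith
  let A : Set ℕ := {n | ∃ s, P s ∧ s.card = n}
  have hA : A.Nonempty := ⟨0, ∅, by intro v hv; simp at hv, rfl⟩
  have hAb : BddAbove A := ⟨htfin.toFinset.card, by rintro n ⟨s, hs, rfl⟩; exact hbound s hs⟩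
  obtain ⟨N, hN, hNc⟩ := Nat.sSup_mem hA hAb
  refine ⟨N, hN, fun x => ?_⟩
  by_contra hcon
  push Not at hcon
  have hx : x ∉ N := fun hx => by
    have := hcon x hx
    rw [sub_self, norm_zero] at this
    linarith
  have hP : P (insert x N) := by
    intro v hv w hw hvw
    rw [Finset.mem_insert] at hv hw
    rcases hv with rfl | hv <;> rcases hw with rfl | hw
    · exact absurd rfl hvw
    · exact hcon w hw
    · rw [norm_sub_rev]; exact hcon v hv
    · exact hN v hv w hw hvw
  have h1 : (insert x N).card ∈ A := ⟨_, hP, rfl⟩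
  have h2 := le_csSup hAb h1
  rw [← hNc, Finset.card_insert_of_notMem hx] at h2
  omega

lemma card_near (K : Set E) {r : ℝ} (hr : 0 < r) (N : Finset K)
    (hN : ∀ v ∈ N, ∀ w ∈ N, v ≠ w → r ≤ ‖(v : E) - w‖) (x : E) [DecidablePred fun v : K => ‖x - (v : E)‖ < 2 * r] :
    (N.filter fun v : K => ‖x - (v : E)‖ < 2 * r).card ≤ 5 ^ Module.finrank ℝ E := by
  classical
  let f : K → E := fun v => r⁻¹ • ((v : E) - x)
  have hf : Function.Injective f := by
    intro v w hvw
    have h1 : (v : E) - x = (w : E) - x := smul_right_injective E (inv_ne_zero hr.ne') hvw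
    exact Subtype.ext (sub_left_injective h1)
  have h2 := Besicovitch.card_le_of_separated ((N.filter fun v : K => ‖x - (v : E)‖ < 2 * r).image f)
    (by
      intro c hc
      obtain ⟨v, hv, rfl⟩ := Finset.mem_image.1 hc
      have hv2 := (Finset.mem_filter.1 hv).2
      show ‖r⁻¹ • ((v : E) - x)‖ ≤ 2
      rw [norm_smul, norm_inv, Real.norm_of_nonneg hr.le, inv_mul_le_iff₀ hr, norm_sub_rev]
      linarith)
    (by
      intro c hc e he hce
      obtain ⟨v, hv, rfl⟩ := Finset.mem_image.1 hc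
      obtain ⟨w, hw, rfl⟩ := Finset.mem_image.1 he
      have hvw : v ≠ w := fun h => hce (by rw [h])
      have h1 := hN v (Finset.mem_filter.1 hv).1 w (Finset.mem_filter.1 hw).1 hvw
      have h3 : f v - f w = r⁻¹ • ((v : E) - w) := by
        show r⁻¹ • ((v : E) - x) - r⁻¹ • ((w : E) - x) = _
        rw [← smul_sub]; congr 1; abel
      rw [h3, norm_smul, norm_inv, Real.norm_of_nonneg hr.le, le_inv_mul_iff₀ hr, mul_one]
      exact h1)
  rwa [Finset.card_image_of_injective _ hf] at h2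

variable [HasContDiffBump E]

variable (E) in
/-- the standard bump -/
noncomputable def bmp : ContDiffBump (0 : E) := ⟨1, 2, one_pos, by norm_num⟩

omit [FiniteDimensional ℝ E] in
lemma bmp_one {x : E} (hx : ‖x‖ ≤ 1) : bmp E x = 1 :=
  (bmp E).one_of_mem_closedBall (by rw [mem_closedBall_zero_iff]; exact hx)

omit [FiniteDimensional ℝ E] in
lemma bmp_zero {x : E} (hx : 2 ≤ ‖x‖) : bmp E x = 0 :=
  (bmp E).zero_of_le_dist (by rw [dist_zero_right]; exact hx)

variable (E) in
lemma bmp_lip : ∃ L : ℝ, 0 ≤ L ∧ ∀ x y : E, |bmp E x - bmp E y| ≤ L * ‖x - y‖ := by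
  obtain ⟨L, hL⟩ := ((bmp E).contDiff (n := 1)).lipschitzWith_of_hasCompactSupport
    (bmp E).hasCompactSupport one_ne_zero
  refine ⟨L, L.2, fun x y => ?_⟩
  have := hL.dist_le_mul x y
  rwa [Real.dist_eq, dist_eq_norm] at this

variable (E) in
/-- **Partition of unity.** -/
theorem exists_partition : ∃ C : ℝ, 0 ≤ C ∧ ∀ (K : Set E), IsCompact K → ∀ r : ℝ, 0 < r →
    ∃ (N : Finset K) (φ : K → E → ℝ),
      (∀ v ∈ N, ∀ x ∈ K, ContDiffAt ℝ 1 (φ v) x) ∧
      (∀ v ∈ N, ∀ x ∈ K, 0 ≤ φ v x) ∧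
      (∀ x ∈ K, ∑ v ∈ N, φ v x = 1) ∧
      (∀ v ∈ N, ∀ x ∈ K, φ v x ≠ 0 → ‖x - (v : E)‖ < 2 * r) ∧
      (∀ x ∈ K, ∀ y ∈ K, ∑ v ∈ N, |φ v x - φ v y| ≤ C / r * ‖x - y‖) := by
  classical
  obtain ⟨L, hL, hLip⟩ := bmp_lip E
  refine ⟨4 * 5 ^ Module.finrank ℝ E * L, by positivity, fun K hK r hr => ?_⟩
  obtain ⟨N, hN1, hN2⟩ := exists_net K hK hr
  let b : K → E → ℝ := fun v x => bmp E (r⁻¹ • (x - v))
  have hb0 : ∀ (v : K) (x : E), 0 ≤ b v x := fun v x => (bmp E).nonneg
  have hbz : ∀ (v : K) (x : E), 2 * r ≤ ‖x - (v : E)‖ → b v x = 0 := by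
    intro v x hx
    refine bmp_zero ?_
    rw [norm_smul, norm_inv, Real.norm_of_nonneg hr.le, le_inv_mul_iff₀ hr]
    linarith
  have hb1 : ∀ (v : K) (x : E), ‖x - (v : E)‖ ≤ r → b v x = 1 := by
    intro v x hx
    refine bmp_one ?_
    rw [norm_smul, norm_inv, Real.norm_of_nonneg hr.le, inv_mul_le_iff₀ hr]
    linarith
  have hbL : ∀ v x y, |b v x - b v y| ≤ L / r * ‖x - y‖ := by
    intro v x y
    refine (hLip _ _).trans ?_
    rw [← smul_sub, norm_smul, norm_inv, Real.norm_of_nonneg hr.le, sub_sub_sub_cancel_right]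
    apply le_of_eq
    field_simp
  have hbd : ∀ v, ContDiff ℝ 1 (b v) := by
    intro v
    refine ((bmp E).contDiff (n := 1)).comp ?_
    fun_prop
  let B : E → ℝ := fun x => ∑ v ∈ N, b v x
  have hB1 : ∀ x ∈ K, 1 ≤ B x := by
    intro x hx
    obtain ⟨v, hv, hxv⟩ := hN2 ⟨x, hx⟩
    calc (1 : ℝ) = b v x := (hb1 v x hxv.le).symm
      _ ≤ B x := Finset.single_le_sum (f := fun v => b v x) (fun w _ => hb0 w x) hv
  have hBd : ContDiff ℝ 1 B := ContDiff.sum fun v _ => hbd v
  have hsumb : ∀ x y, ∑ v ∈ N, |b v x - b v y| ≤ 2 * 5 ^ Module.finrank ℝ E * L / r * ‖x - y‖ := by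
    intro x y
    have h1 : ∀ v ∈ N, |b v x - b v y| ≤
        (if ‖x - (v : E)‖ < 2 * r then L / r * ‖x - y‖ else 0) +
        (if ‖y - (v : E)‖ < 2 * r then L / r * ‖x - y‖ else 0) := by
      intro v _
      have hpos : 0 ≤ L / r * ‖x - y‖ := by positivity
      split_ifs with hx hy hy
      · linarith [hbL v x y]
      · linarith [hbL v x y]
      · linarith [hbL v x y]
      · rw [hbz v x (not_lt.1 hx), hbz v y (not_lt.1 hy)]
        simp
    refine (Finset.sum_le_sum h1).trans ?_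
    rw [Finset.sum_add_distrib, ← Finset.sum_filter, ← Finset.sum_filter, Finset.sum_const,
      Finset.sum_const, nsmul_eq_mul, nsmul_eq_mul, ← add_mul]
    have h2 : ((N.filter fun v : K => ‖x - (v : E)‖ < 2 * r).card : ℝ) ≤ 5 ^ Module.finrank ℝ E := by
      exact_mod_cast card_near K hr N hN1 x
    have h3 : ((N.filter fun v : K => ‖y - (v : E)‖ < 2 * r).card : ℝ) ≤ 5 ^ Module.finrank ℝ E := by
      exact_mod_cast card_near K hr N hN1 y
    calc _ ≤ (5 ^ Module.finrank ℝ E + 5 ^ Module.finrank ℝ E) * (L / r * ‖x - y‖) :=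
          mul_le_mul_of_nonneg_right (add_le_add h2 h3) (by positivity)
      _ = _ := by ring
  refine ⟨N, fun v x => b v x / B x, ?_, ?_, ?_, ?_, ?_⟩
  · intro v _ x hx
    exact (hbd v).contDiffAt.div hBd.contDiffAt (by have := hB1 x hx; positivity)
  · intro v _ x hx
    have := hB1 x hx
    exact div_nonneg (hb0 v x) (by linarith)
  · intro x hx
    rw [← Finset.sum_div]
    exact div_self (by have := hB1 x hx; positivity)
  · intro v _ x _ hne
    by_contra hcon
    rw [not_lt] at hcon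
    apply hne
    show b v x / B x = 0
    rw [hbz v x hcon, zero_div]
  · intro x hx y hy
    have hBx := hB1 x hx
    have hBy := hB1 y hy
    have h1 : ∀ v ∈ N, |b v x / B x - b v y / B y| ≤
        |b v x - b v y| + b v y / B y * |B x - B y| := by
      intro v _
      have h2 : b v x / B x - b v y / B y = (b v x - b v y) / B x +
          (b v y / B y) * ((B y - B x) / B x) := by
        have : B x ≠ 0 := by positivity
        have : B y ≠ 0 := by positivity
        field_simp
        ring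
      rw [h2]
      refine (abs_add_le _ _).trans (add_le_add ?_ ?_)
      · rw [abs_div, abs_of_pos (by linarith : 0 < B x)]
        exact div_le_self (abs_nonneg _) hBx
      · rw [abs_mul, abs_of_nonneg (div_nonneg (hb0 v y) (by linarith : 0 ≤ B y)), abs_div,
          abs_of_pos (by linarith : 0 < B x), abs_sub_comm (B y)]
        exact mul_le_mul_of_nonneg_left (div_le_self (abs_nonneg _) hBx)
          (div_nonneg (hb0 v y) (by linarith : 0 ≤ B y))
    refine (Finset.sum_le_sum h1).trans ?_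
    rw [Finset.sum_add_distrib, ← Finset.sum_mul, ← Finset.sum_div]
    have h3 : (∑ v ∈ N, b v y) / B y = 1 := div_self (by positivity)
    rw [h3, one_mul]
    have h4 : |B x - B y| ≤ ∑ v ∈ N, |b v x - b v y| := by
      show |∑ v ∈ N, b v x - ∑ v ∈ N, b v y| ≤ _
      rw [← Finset.sum_sub_distrib]
      exact Finset.abs_sum_le_sum_abs _ _
    have h5 := hsumb x y
    calc _ ≤ 2 * (2 * 5 ^ Module.finrank ℝ E * L / r * ‖x - y‖) := by linarith
      _ = _ := by ring

end Pool.Agent.W704.CB
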