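import Mathlib
import Pool.Agent.H266R3.LDef
import Pool.Agent.W704.CBAuer
import Pool.Agent.W704.CBPart

/-!
Local affine quasi-interpolation operators on spaces of Lipschitz functions.
-/

set_option autoImplicit false

open Filter Topology Metric
open Pool.Agent.H266R3.LF

namespace Pool.Agent.W704.CB

variable {E : Type} [NormedAddCommGroup E] [NormedSpace ℝ E]

/-- Functions which are continuously differentiable near a compact set are uniformly well
approximated by affine functions at small scales. -/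
lemma uniform_diff {K : Set E} (hK : IsCompact K) {G : E → ℝ}
    (hG : ∀ x ∈ K, ContDiffAt ℝ 1 G x) {ε : ℝ} (hε : 0 < ε) :
    ∃ δ > 0, ∀ p ∈ K, ∃ l : E →L[ℝ] ℝ, ∀ x y : E, ‖x - p‖ < δ → ‖y - p‖ < δ →
      |G x - G y - l (x - y)| ≤ ε * ‖x - y‖ := by
  have h1 : ∀ q : K, ∃ ρ > 0, ∀ x ∈ ball (q : E) ρ, ∀ y ∈ ball (q : E) ρ,
      |G x - G y - fderiv ℝ G q (x - y)| ≤ ε * ‖x - y‖ := by
    intro q
    have h2 := ((hG q q.2).hasStrictFDerivAt one_ne_zero).isLittleO.def hε
    rw [nhds_prod_eq, Filter.eventually_iff, Filter.mem_prod_self_iff] at h2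
    obtain ⟨t, ht, ht2⟩ := h2
    obtain ⟨ρ, hρ, hρt⟩ := Metric.mem_nhds_iff.1 ht
    refine ⟨ρ, hρ, fun x hx y hy => ?_⟩
    have := ht2 (Set.mk_mem_prod (hρt hx) (hρt hy))
    simpa [Real.norm_eq_abs] using this
  choose ρ hρ hρ2 using h1
  obtain ⟨δ, hδ, hδ2⟩ := lebesgue_number_lemma_of_metric (c := fun q : K => ball (q : E) (ρ q)) hK
    (fun _ => isOpen_ball) (fun x hx => Set.mem_iUnion.2 ⟨⟨x, hx⟩, mem_ball_self (hρ _)⟩)
  refine ⟨δ, hδ, fun p hp => ?_⟩
  obtain ⟨q, hq⟩ := hδ2 p hp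
  refine ⟨fderiv ℝ G q, fun x y hx hy => hρ2 q x (hq ?_) y (hq ?_)⟩
  · rw [mem_ball, dist_eq_norm]; exact hx
  · rw [mem_ball, dist_eq_norm]; exact hy

/-- Functions which are continuously differentiable near a compact set are Lipschitz on it. -/
lemma exists_lip {K : Set E} (hK : IsCompact K) {G : E → ℝ}
    (hG : ∀ x ∈ K, ContDiffAt ℝ 1 G x) :
    ∃ L : ℝ, 0 ≤ L ∧ ∀ x ∈ K, ∀ y ∈ K, |G x - G y| ≤ L * ‖x - y‖ := by
  have h1 : LocallyLipschitzOn K G := by
    intro x hx
    obtain ⟨L, t, ht, hL⟩ := (hG x hx).exists_lipschitzOnWith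
    exact ⟨L, t, mem_nhdsWithin_of_mem_nhds ht, hL⟩
  obtain ⟨L, hL⟩ := h1.exists_lipschitzOnWith_of_compact hK
  refine ⟨L, L.2, fun x hx y hy => ?_⟩
  have := hL.dist_le_mul x hx y hy
  rwa [Real.dist_eq, dist_eq_norm] at this

/-- The restriction of a smooth function, as an element of `Lip0`. -/
lemma exists_restr {K : Set E} (hK : IsCompact K) (o : K) {G : E → ℝ}
    (hG : ∀ x ∈ K, ContDiffAt ℝ 1 G x) :
    ∃ g : Lip0 K o, ∀ x : K, g.fn x = G x - G o := by
  obtain ⟨L, hL, hL2⟩ := exists_lip hK hG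
  refine ⟨Lip0.mk (fun x => G x - G o) (sub_self _) L hL fun x y => ?_, fun x => rfl⟩
  rw [sub_sub_sub_cancel_right, Subtype.dist_eq, dist_eq_norm]
  exact hL2 x x.2 y y.2

variable [FiniteDimensional ℝ E] [HasContDiffBump E]


/-- local pairs of points and functionals -/
lemma exists_local (E : Type) [NormedAddCommGroup E] [NormedSpace ℝ E] [FiniteDimensional ℝ E] :
    ∃ C : ℝ, 0 ≤ C ∧ ∀ (K : Set E) (v : K) (R : ℝ), 0 ≤ R →
      ∃ (a b : Fin (Module.finrank ℝ E) → K) (ω : Fin (Module.finrank ℝ E) → (E →L[ℝ] ℝ)),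
        (∀ i, ‖(a i : E) - v‖ ≤ R) ∧ (∀ i, ‖(b i : E) - v‖ ≤ R) ∧
        ∀ x y : K, ‖(x : E) - v‖ ≤ R → ‖(y : E) - v‖ ≤ R →
          ((x : E) - y = ∑ i, ω i ((x : E) - y) • (‖(a i : E) - b i‖⁻¹ • ((a i : E) - b i))) ∧
          ∀ i, |ω i ((x : E) - y)| ≤ C * ‖(x : E) - y‖ := by
  classical
  obtain ⟨C, hC, h⟩ := exists_coord E (Module.finrank ℝ E)
  refine ⟨C, hC, fun K v R hR => ?_⟩
  let U : Set E := {w | ∃ x y : K, ‖(x : E) - v‖ ≤ R ∧ ‖(y : E) - v‖ ≤ R ∧
    w = ‖(x : E) - y‖⁻¹ • ((x : E) - y)}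
  have hU : U.Nonempty := ⟨_, v, v, by simpa using hR, by simpa using hR, rfl⟩
  have hUb : Bornology.IsBounded U := by
    rw [isBounded_iff_forall_norm_le]
    refine ⟨1, ?_⟩
    rintro _ ⟨x, y, -, -, rfl⟩
    rw [norm_smul, norm_inv, norm_norm]
    exact inv_mul_le_one
  obtain ⟨u, ω, hu, hω⟩ := h U hU hUb (Submodule.finrank_le _)
  choose a b ha hb hab using hu
  refine ⟨a, b, ω, ha, hb, fun x y hx hy => ?_⟩
  obtain ⟨h1, h2⟩ := hω _ ⟨x, y, hx, hy, rfl⟩
  rcases eq_or_ne (x : E) y with hxy | hxy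
  · rw [hxy, sub_self]
    simp
  · have hpos : 0 < ‖(x : E) - y‖ := norm_pos_iff.2 (sub_ne_zero.2 hxy)
    constructor
    · have h3 : (x : E) - y = ‖(x : E) - y‖ • (‖(x : E) - y‖⁻¹ • ((x : E) - y)) := by
        rw [smul_smul, mul_inv_cancel₀ hpos.ne', one_smul]
      conv_lhs => rw [h3, h1, Finset.smul_sum]
      refine Finset.sum_congr rfl fun i _ => ?_
      rw [map_smul, smul_smul, smul_eq_mul, ← mul_assoc, mul_inv_cancel₀ hpos.ne', one_mul, hab i]
    · intro i
      have h3 := h2 i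
      rw [map_smul, smul_eq_mul, abs_mul, abs_of_pos (inv_pos.2 hpos), inv_mul_le_iff₀ hpos] at h3
      linarith

/-- **The quasi-interpolation operators.** -/
theorem exists_operator (E : Type) [NormedAddCommGroup E] [NormedSpace ℝ E]
    [FiniteDimensional ℝ E] [HasContDiffBump E] : ∃ C : ℝ, 0 ≤ C ∧ ∀ (K : Set E), IsCompact K →
    ∀ (o : K) (r : ℝ), 0 < r → ∃ S : Lip0 K o →L[ℝ] Lip0 K o,
      (∃ (J : Type) (_ : Fintype J) (lam : J → StrongDual ℝ (Lip0 K o)) (G : J → E → ℝ)
        (g : J → Lip0 K o),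
        (∀ j, lam j ∈ Submodule.span ℝ (Set.range (dlt K o))) ∧
        (∀ j, ∀ x ∈ K, ContDiffAt ℝ 1 (G j) x) ∧
        (∀ j, ∀ x : K, (g j).fn x = G j x - G j o) ∧
        ∀ f, S f = ∑ j, lam j f • g j) ∧
      ∀ (g : Lip0 K o) (ε : ℝ), 0 ≤ ε →
        (∀ p : K, ∃ l : E →L[ℝ] ℝ, ∀ x y : K, ‖(x : E) - p‖ ≤ 3 * r → ‖(y : E) - p‖ ≤ 3 * r →
          |g.fn x - g.fn y - l ((x : E) - y)| ≤ ε * ‖(x : E) - y‖) →
        ‖S g - g‖ ≤ C * ε ∧ ∀ x, |(S g).fn x - g.fn x| ≤ C * ε * r := by
  classical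
  obtain ⟨C₀, hC₀, hloc⟩ := exists_local E
  obtain ⟨C₁, hC₁, hpart⟩ := exists_partition E
  set n := Module.finrank ℝ E with hn
  set C₂ : ℝ := 1 + n * C₀ with hC₂
  have hC₂0 : 0 ≤ C₂ := by positivity
  refine ⟨6 * C₂ + 3 * C₁ * C₂, by positivity, fun K hK o r hr => ?_⟩
  obtain ⟨N, φ, hφd, hφ0, hφ1, hφs, hφL⟩ := hpart K hK r hr
  choose a b ω ha hb hω using fun v : K => hloc K v (3 * r) (by positivity)
  -- the smooth functions
  have hG1 : ∀ v : N, ∀ x ∈ K, ContDiffAt ℝ 1 (φ v) x := fun v x hx => hφd v v.2 x hx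
  have hG2 : ∀ q : N × Fin n, ∀ x ∈ K,
      ContDiffAt ℝ 1 (fun x : E => φ q.1 x * ω q.1 q.2 (x - (q.1 : K))) x := by
    intro q x hx
    refine (hφd q.1 q.1.2 x hx).mul ?_
    exact ((ω q.1 q.2).contDiff.contDiffAt).comp x (by fun_prop)
  choose g₁ hg₁ using fun v : N => exists_restr hK o (hG1 v)
  choose g₂ hg₂ using fun q : N × Fin n => exists_restr hK o (hG2 q)
  let lam₁ : N → StrongDual ℝ (Lip0 K o) := fun v => dlt K o v
  let lam₂ : N × Fin n → StrongDual ℝ (Lip0 K o) := fun q =>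
    ‖(a q.1 q.2 : E) - b q.1 q.2‖⁻¹ • (dlt K o (a q.1 q.2) - dlt K o (b q.1 q.2))
  let S : Lip0 K o →L[ℝ] Lip0 K o :=
    ∑ v : N, (lam₁ v).smulRight (g₁ v) + ∑ q : N × Fin n, (lam₂ q).smulRight (g₂ q)
  have hS : ∀ f, S f = ∑ v : N, lam₁ v f • g₁ v + ∑ q : N × Fin n, lam₂ q f • g₂ q := by
    intro f
    simp only [S, add_apply, sum_apply, ContinuousLinearMap.smulRight_apply]
  -- evaluation is linear
  have hfnsum : ∀ {ι : Type} (s : Finset ι) (F : ι → Lip0 K o) (x : K),
      (∑ i ∈ s, F i).fn x = ∑ i ∈ s, (F i).fn x := by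
    intro ι s F x
    exact map_sum (dlt K o x) F s
  -- the unnormalised operator
  let A : (Lip0 K o) → K → E → ℝ := fun f v x =>
    f.fn v + ∑ i, (‖(a v i : E) - b v i‖⁻¹ * (f.fn (a v i) - f.fn (b v i))) * ω v i (x - v)
  let St : (Lip0 K o) → E → ℝ := fun f x => ∑ v ∈ N, φ v x * A f v x
  have hSfn : ∀ f (x : K), (S f).fn x = St f x - St f o := by
    intro f x
    have h1 : ∀ y : E, St f y = ∑ v : N, lam₁ v f * φ v y + ∑ q : N × Fin n,
        lam₂ q f * (φ q.1 y * ω q.1 q.2 (y - (q.1 : K))) := by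
      intro y
      have h2 : ∑ v ∈ N, φ v y * A f v y = ∑ v : N, φ v y * A f v y := by
        rw [← Finset.sum_coe_sort N (fun v => φ v y * A f v y)]
      show ∑ v ∈ N, φ v y * A f v y = _
      rw [h2, Fintype.sum_prod_type, ← Finset.sum_add_distrib]
      refine Finset.sum_congr rfl fun v _ => ?_
      show φ v y * (f.fn v + ∑ i, (‖(a v i : E) - b v i‖⁻¹ * (f.fn (a v i) - f.fn (b v i))) *
        ω v i (y - (v : K))) = f.fn v * φ v y + ∑ i,
          (‖(a v i : E) - b v i‖⁻¹ * (f.fn (a v i) - f.fn (b v i))) *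
            (φ v y * ω v i (y - (v : K)))
      rw [mul_add, Finset.mul_sum]
      congr 1
      · ring
      · exact Finset.sum_congr rfl fun i _ => by ring
    rw [hS, Lip0.fn_add, hfnsum, hfnsum, h1, h1]
    simp only [Lip0.fn_smul, hg₁, hg₂, mul_sub, Finset.sum_sub_distrib]
    ring
  refine ⟨S, ⟨N ⊕ (N × Fin n), inferInstance, Sum.elim lam₁ lam₂,
    Sum.elim (fun v => φ v) (fun q => fun x : E => φ q.1 x * ω q.1 q.2 (x - (q.1 : K))),
    Sum.elim g₁ g₂, ?_, ?_, ?_, ?_⟩, ?_⟩
  · rintro (v | q)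
    · exact Submodule.subset_span ⟨_, rfl⟩
    · exact Submodule.smul_mem _ _ (Submodule.sub_mem _ (Submodule.subset_span ⟨_, rfl⟩)
        (Submodule.subset_span ⟨_, rfl⟩))
  · rintro (v | q)
    · exact hG1 v
    · exact hG2 q
  · rintro (v | q)
    · exact hg₁ v
    · exact hg₂ q
  · intro f
    rw [hS, Fintype.sum_sum_type]
    rfl
  · intro g ε hε hg
    -- local errors
    have hD : ∀ v : K, ∀ x y : K, ‖(x : E) - v‖ ≤ 3 * r → ‖(y : E) - v‖ ≤ 3 * r →
        |(A g v x - g.fn x) - (A g v y - g.fn y)| ≤ C₂ * ε * ‖(x : E) - y‖ := by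
      intro v x y hx hy
      obtain ⟨l, hl⟩ := hg v
      obtain ⟨h1, h2⟩ := hω v x y hx hy
      have h3 : (A g v x - g.fn x) - (A g v y - g.fn y) =
          ∑ i, ((‖(a v i : E) - b v i‖⁻¹ * (g.fn (a v i) - g.fn (b v i))) -
            l (‖(a v i : E) - b v i‖⁻¹ • ((a v i : E) - b v i))) * ω v i ((x : E) - y)
          - (g.fn x - g.fn y - l ((x : E) - y)) := by
        have h4 : l ((x : E) - y) = ∑ i, ω v i ((x : E) - y) *
            l (‖(a v i : E) - b v i‖⁻¹ • ((a v i : E) - b v i)) := by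
          conv_lhs => rw [h1, map_sum]
          exact Finset.sum_congr rfl fun i _ => by rw [map_smul, smul_eq_mul]
        have h5 : ∀ i, ω v i ((x : E) - v) - ω v i ((y : E) - v) = ω v i ((x : E) - y) := by
          intro i
          rw [← map_sub, sub_sub_sub_cancel_right]
        simp only [A, sub_mul, Finset.sum_sub_distrib]
        have h6 : ∑ i, (‖(a v i : E) - b v i‖⁻¹ * (g.fn (a v i) - g.fn (b v i))) *
            ω v i ((x : E) - v) - ∑ i, (‖(a v i : E) - b v i‖⁻¹ *
              (g.fn (a v i) - g.fn (b v i))) * ω v i ((y : E) - v) =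
            ∑ i, (‖(a v i : E) - b v i‖⁻¹ * (g.fn (a v i) - g.fn (b v i))) *
              ω v i ((x : E) - y) := by
          rw [← Finset.sum_sub_distrib]
          exact Finset.sum_congr rfl fun i _ => by rw [← mul_sub, h5]
        have h7 : ∑ i, l (‖(a v i : E) - b v i‖⁻¹ • ((a v i : E) - b v i)) *
            ω v i ((x : E) - y) = l ((x : E) - y) := by
          rw [h4]
          exact Finset.sum_congr rfl fun i _ => mul_comm _ _
        rw [h7, ← h6]
        ring
      rw [h3]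
      have h8 : ∀ i, |(‖(a v i : E) - b v i‖⁻¹ * (g.fn (a v i) - g.fn (b v i))) -
            l (‖(a v i : E) - b v i‖⁻¹ • ((a v i : E) - b v i))| ≤ ε := by
        intro i
        rw [map_smul, smul_eq_mul, ← mul_sub, abs_mul, abs_inv, abs_norm]
        have h9 := hl (a v i) (b v i) (ha v i) (hb v i)
        rcases eq_or_ne ‖(a v i : E) - b v i‖ 0 with h0 | h0
        · rw [h0, inv_zero, zero_mul]; exact hε
        · rw [inv_mul_le_iff₀ (lt_of_le_of_ne (norm_nonneg _) h0.symm)]
          linarith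
      have h10 : |∑ i, ((‖(a v i : E) - b v i‖⁻¹ * (g.fn (a v i) - g.fn (b v i))) -
            l (‖(a v i : E) - b v i‖⁻¹ • ((a v i : E) - b v i))) * ω v i ((x : E) - y)| ≤
          ∑ _i : Fin n, ε * (C₀ * ‖(x : E) - y‖) := by
        refine (Finset.abs_sum_le_sum_abs _ _).trans (Finset.sum_le_sum fun i _ => ?_)
        rw [abs_mul]
        exact mul_le_mul (h8 i) (h2 i) (abs_nonneg _) hε
      rw [Finset.sum_const, Finset.card_univ, Fintype.card_fin, nsmul_eq_mul] at h10
      have h11 := hl x y hx hy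
      have h12 := abs_sub (∑ i, ((‖(a v i : E) - b v i‖⁻¹ * (g.fn (a v i) - g.fn (b v i))) -
            l (‖(a v i : E) - b v i‖⁻¹ • ((a v i : E) - b v i))) * ω v i ((x : E) - y))
            (g.fn x - g.fn y - l ((x : E) - y))
      rw [hC₂]
      calc _ ≤ n * (ε * (C₀ * ‖(x : E) - y‖)) + ε * ‖(x : E) - y‖ := by linarith
        _ = _ := by ring
    have hDv : ∀ v x : K, ‖(x : E) - v‖ ≤ 3 * r →
        |A g v x - g.fn x| ≤ C₂ * ε * ‖(x : E) - v‖ := by
      intro v x hx
      have h1 := hD v x v hx (by rw [sub_self, norm_zero]; positivity)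
      have h2 : A g v v = g.fn v := by simp [A]
      rwa [h2, sub_self, sub_zero] at h1
    -- global error
    let H : K → ℝ := fun x => St g x - g.fn x
    have hH : ∀ x : K, H x = ∑ v ∈ N, φ v x * (A g v x - g.fn x) := by
      intro x
      simp only [H, St, mul_sub, Finset.sum_sub_distrib]
      rw [← Finset.sum_mul, hφ1 x x.2, one_mul]
    have hHb : ∀ x : K, |H x| ≤ 2 * r * (C₂ * ε) := by
      intro x
      rw [hH]
      have h1 : ∀ v ∈ N, |φ v x * (A g v x - g.fn x)| ≤ φ v x * (2 * r * (C₂ * ε)) := by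
        intro v hv
        rw [abs_mul, abs_of_nonneg (hφ0 v hv x x.2)]
        rcases eq_or_ne (φ v x) 0 with h0 | h0
        · rw [h0, zero_mul, zero_mul]
        · refine mul_le_mul_of_nonneg_left ?_ (hφ0 v hv x x.2)
          have h2 := hφs v hv x x.2 h0
          refine (hDv v x (by linarith)).trans ?_
          have : 0 ≤ C₂ * ε := by positivity
          nlinarith
      refine (Finset.abs_sum_le_sum_abs _ _).trans ((Finset.sum_le_sum h1).trans ?_)
      rw [← Finset.sum_mul, hφ1 x x.2, one_mul]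
    have hHL : ∀ x y : K, |H x - H y| ≤ (6 * C₂ + 3 * C₁ * C₂) * ε * ‖(x : E) - y‖ := by
      intro x y
      have hCe : 0 ≤ C₂ * ε := by positivity
      by_cases hxy : ‖(x : E) - y‖ ≤ r
      · have h1 : H x - H y = ∑ v ∈ N, φ v x * ((A g v x - g.fn x) - (A g v y - g.fn y)) +
            ∑ v ∈ N, (φ v x - φ v y) * (A g v y - g.fn y) := by
          rw [hH, hH, ← Finset.sum_add_distrib, ← Finset.sum_sub_distrib]
          exact Finset.sum_congr rfl fun v _ => by ring
        have h2 : |∑ v ∈ N, φ v x * ((A g v x - g.fn x) - (A g v y - g.fn y))| ≤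
            C₂ * ε * ‖(x : E) - y‖ := by
          have h3 : ∀ v ∈ N, |φ v x * ((A g v x - g.fn x) - (A g v y - g.fn y))| ≤
              φ v x * (C₂ * ε * ‖(x : E) - y‖) := by
            intro v hv
            rw [abs_mul, abs_of_nonneg (hφ0 v hv x x.2)]
            rcases eq_or_ne (φ v x) 0 with h0 | h0
            · rw [h0, zero_mul, zero_mul]
            · refine mul_le_mul_of_nonneg_left ?_ (hφ0 v hv x x.2)
              have h4 := hφs v hv x x.2 h0
              have h5 : ‖(y : E) - v‖ ≤ 3 * r := by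
                have h6 : (y : E) - v = ((x : E) - v) - ((x : E) - y) := by abel
                rw [h6]
                have := norm_sub_le ((x : E) - v) ((x : E) - y)
                linarith
              exact hD v x y (by linarith) h5
          refine (Finset.abs_sum_le_sum_abs _ _).trans ((Finset.sum_le_sum h3).trans ?_)
          rw [← Finset.sum_mul, hφ1 x x.2, one_mul]
        have h3 : |∑ v ∈ N, (φ v x - φ v y) * (A g v y - g.fn y)| ≤
            3 * C₁ * C₂ * ε * ‖(x : E) - y‖ := by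
          have h4 : ∀ v ∈ N, |(φ v x - φ v y) * (A g v y - g.fn y)| ≤
              |φ v x - φ v y| * (C₂ * ε * (3 * r)) := by
            intro v hv
            rw [abs_mul]
            by_cases h0 : φ v x = 0 ∧ φ v y = 0
            · rw [h0.1, h0.2, sub_zero, abs_zero, zero_mul, zero_mul]
            · refine mul_le_mul_of_nonneg_left ?_ (abs_nonneg _)
              have h5 : ‖(y : E) - v‖ ≤ 3 * r := by
                rw [not_and_or] at h0
                rcases h0 with h0 | h0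
                · have h4 := hφs v hv x x.2 h0
                  have h6 : (y : E) - v = ((x : E) - v) - ((x : E) - y) := by abel
                  rw [h6]
                  have := norm_sub_le ((x : E) - v) ((x : E) - y)
                  linarith
                · have h4 := hφs v hv y y.2 h0
                  linarith
              exact (hDv v y h5).trans (mul_le_mul_of_nonneg_left h5 hCe)
          refine (Finset.abs_sum_le_sum_abs _ _).trans ((Finset.sum_le_sum h4).trans ?_)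
          rw [← Finset.sum_mul]
          have h5 := hφL x x.2 y y.2
          calc _ ≤ (C₁ / r * ‖(x : E) - y‖) * (C₂ * ε * (3 * r)) :=
                mul_le_mul_of_nonneg_right h5 (by positivity)
            _ = 3 * C₁ * C₂ * ε * ‖(x : E) - y‖ := by field_simp
        rw [h1]
        refine (abs_add_le _ _).trans ?_
        have h4 : 0 ≤ C₂ * ε * ‖(x : E) - y‖ := by positivity
        nlinarith
      · rw [not_le] at hxy
        have h1 := hHb x
        have h2 := hHb y
        have h3 := abs_sub (H x) (H y)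
        have h4 : 4 * r * (C₂ * ε) ≤ 4 * ‖(x : E) - y‖ * (C₂ * ε) :=
          mul_le_mul_of_nonneg_right (by linarith) hCe
        have h5 : 0 ≤ C₁ * C₂ * ε * ‖(x : E) - y‖ := by positivity
        have h6 : 0 ≤ C₂ * ε * ‖(x : E) - y‖ := by positivity
        nlinarith
    have hSg : ∀ x : K, (S g - g).fn x = H x - H o := by
      intro x
      rw [Lip0.fn_sub, hSfn]
      simp only [H, Lip0.fn_base]
      ring
    constructor
    · refine Lip0.norm_le' _ (by positivity) fun x y => ?_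
      rw [hSg, hSg, sub_sub_sub_cancel_right, Subtype.dist_eq, dist_eq_norm]
      exact hHL x y
    · intro x
      have h1 := hSg x
      rw [Lip0.fn_sub] at h1
      rw [h1]
      have h2 := hHb x
      have h3 := hHb o
      have h4 := abs_sub (H x) (H o)
      have h5 : 0 ≤ C₁ * C₂ * ε * r := by positivity
      have h6 : 0 ≤ C₂ * ε * r := by positivity
      nlinarith

end Pool.Agent.W704.CB
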