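import Mathlib
import Pool.Agent.H266R3.LDef
import Pool.Agent.W704.CBAbs
import Pool.Agent.W704.CBOp

/-!
Lipschitz-free spaces over compact subsets of finite dimensional spaces.
-/

set_option autoImplicit false

open Filter Topology Metric
open Pool.Agent.H266R3.LF

namespace Pool.Agent.W704.CB

section Adjoint

variable {M : Type} [MetricSpace M] {o : M}

instance : CompleteSpace (FreeSp M o) := by
  have h : IsClosed ((LFree M o : Submodule ℝ (StrongDual ℝ (Lip0 M o))) :
      Set (StrongDual ℝ (Lip0 M o))) :=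
    Submodule.isClosed_topologicalClosure (Submodule.span ℝ (Set.range (dlt M o)))
  exact h.completeSpace_coe

/-- an operator on `Lip0` whose evaluations are in the free space has an adjoint there -/
lemma exists_adjoint (S : Lip0 M o →L[ℝ] Lip0 M o)
    (hS : ∀ x, (dlt M o x).comp S ∈ LFree M o) :
    ∃ T : FreeSp M o →L[ℝ] FreeSp M o, ∀ μ, inc M o (T μ) = (inc M o μ).comp S := by
  let Φ : StrongDual ℝ (Lip0 M o) →L[ℝ] StrongDual ℝ (Lip0 M o) :=
    (ContinuousLinearMap.compL ℝ (Lip0 M o) (Lip0 M o) ℝ).flip S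
  have hΦ : ∀ μ, Φ μ = μ.comp S := fun μ => rfl
  have h1 : LFree M o ≤ (LFree M o).comap (Φ : StrongDual ℝ (Lip0 M o) →ₗ[ℝ] _) := by
    refine Submodule.topologicalClosure_minimal _ ?_ ?_
    · rw [Submodule.span_le]
      rintro _ ⟨x, rfl⟩
      exact hS x
    · have h2 : IsClosed ((LFree M o : Submodule ℝ (StrongDual ℝ (Lip0 M o))) :
          Set (StrongDual ℝ (Lip0 M o))) :=
        Submodule.isClosed_topologicalClosure (Submodule.span ℝ (Set.range (dlt M o)))
      exact h2.preimage Φ.continuous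
  let T : ↥(LFree M o) →L[ℝ] ↥(LFree M o) :=
    (Φ.comp (LFree M o).subtypeL).codRestrict (LFree M o) (fun μ => h1 μ.2)
  exact ⟨T, fun μ => rfl⟩

lemma inc_injective : Function.Injective (inc M o) := Subtype.val_injective

lemma adjoint_norm_le {T : FreeSp M o →L[ℝ] FreeSp M o} {S : Lip0 M o →L[ℝ] Lip0 M o}
    (h : ∀ μ, inc M o (T μ) = (inc M o μ).comp S) : ‖T‖ ≤ ‖S‖ := by
  refine ContinuousLinearMap.opNorm_le_bound _ (norm_nonneg _) fun μ => ?_
  rw [← norm_inc (T μ), h, ← norm_inc μ, mul_comm]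
  exact ContinuousLinearMap.opNorm_comp_le _ _

/-- the evaluation at `x` as an element of the free space -/
noncomputable def del (x : M) : FreeSp M o := ⟨dlt M o x, dlt_mem x⟩

lemma inc_del (x : M) : inc M o (del x) = dlt M o x := rfl

lemma dense_del : Dense ((Submodule.span ℝ (Set.range (del : M → FreeSp M o)) :
    Submodule ℝ (FreeSp M o)) : Set (FreeSp M o)) := by
  intro μ
  rw [Metric.mem_closure_iff]
  intro ε hε
  have hμ : inc M o μ ∈ closure ((Submodule.span ℝ (Set.range (dlt M o)) :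
    Submodule ℝ (StrongDual ℝ (Lip0 M o))) : Set _) := μ.2
  rw [Metric.mem_closure_iff] at hμ
  obtain ⟨ν, hν, hd⟩ := hμ ε hε
  have h1 : ∃ ν' ∈ Submodule.span ℝ (Set.range (del : M → FreeSp M o)), inc M o ν' = ν := by
    have h2 : Submodule.span ℝ (Set.range (dlt M o)) =
        (Submodule.span ℝ (Set.range (del : M → FreeSp M o))).map (inc M o) := by
      rw [Submodule.map_span, ← Set.range_comp]
      rfl
    have hν' : ν ∈ Submodule.span ℝ (Set.range (dlt M o)) := hν
    rw [h2] at hν'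
    exact Submodule.mem_map.1 hν'
  obtain ⟨ν', hν', rfl⟩ := h1
  refine ⟨ν', hν', ?_⟩
  rw [dist_eq_norm] at hd ⊢
  rw [← norm_inc, map_sub]
  exact hd

end Adjoint

/-- pointwise convergence on a dense subspace -/
lemma tendsto_of_dense {X : Type*} [NormedAddCommGroup X] [NormedSpace ℝ X]
    {T : ℕ → X →L[ℝ] X} {C : ℝ} (hC : ∀ n, ‖T n‖ ≤ C) {s : Set X}
    (hs : Dense ((Submodule.span ℝ s : Submodule ℝ X) : Set X))
    (h : ∀ x ∈ s, Tendsto (fun n => T n x) atTop (𝓝 x)) (x : X) :
    Tendsto (fun n => T n x) atTop (𝓝 x) := by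
  have h1 : ∀ y ∈ Submodule.span ℝ s, Tendsto (fun n => T n y) atTop (𝓝 y) := by
    intro y hy
    induction hy using Submodule.span_induction with
    | mem y hy => exact h y hy
    | zero => simp
    | add y z _ _ hy hz =>
      have := hy.add hz
      refine this.congr fun n => ?_
      rw [map_add]
    | smul c y _ hy =>
      have := hy.const_smul c
      refine this.congr fun n => ?_
      rw [map_smul]
  have hC0 : 0 ≤ C := (norm_nonneg _).trans (hC 0)
  rw [Metric.tendsto_atTop]
  intro ε hε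
  obtain ⟨y, hy, hxy⟩ := Metric.mem_closure_iff.1 (hs x) (ε / (2 * (C + 1))) (by positivity)
  obtain ⟨N, hN⟩ := Metric.tendsto_atTop.1 (h1 y hy) (ε / 2) (by positivity)
  refine ⟨N, fun n hn => ?_⟩
  have h2 := hN n hn
  rw [dist_eq_norm] at h2 hxy ⊢
  have h3 : T n x - x = T n (x - y) + (T n y - y) - (x - y) := by rw [map_sub]; abel
  rw [h3]
  have h4 : ‖T n (x - y)‖ ≤ C * ‖x - y‖ :=
    ((T n).le_opNorm _).trans (mul_le_mul_of_nonneg_right (hC n) (norm_nonneg _))
  have h5 : (C + 1) * ‖x - y‖ < ε / 2 := by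
    have : (C + 1) * (ε / (2 * (C + 1))) = ε / 2 := by field_simp
    rw [← this]
    exact mul_lt_mul_of_pos_left hxy (by positivity)
  calc ‖T n (x - y) + (T n y - y) - (x - y)‖
      ≤ ‖T n (x - y) + (T n y - y)‖ + ‖x - y‖ := norm_sub_le _ _
    _ ≤ ‖T n (x - y)‖ + ‖T n y - y‖ + ‖x - y‖ := by
        have := norm_add_le (T n (x - y)) (T n y - y)
        linarith
    _ < ε := by nlinarith

/-- **Main theorem.** -/
theorem main {E : Type} [NormedAddCommGroup E] [NormedSpace ℝ E] [FiniteDimensional ℝ E]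
    [HasContDiffBump E] {K : Set E} (hK : IsCompact K) (o : K) :
    ∃ T : ℕ → FreeSp K o →L[ℝ] FreeSp K o, (∀ n, FinRank (T n)) ∧
      (∃ C : ℝ, ∀ n, ‖T n‖ ≤ C) ∧ (∀ x, Tendsto (fun n => T n x) atTop (𝓝 x)) ∧
      (∀ m n, m < n → T n * T m = T m ∧ T m * T n = T m) := by
  obtain ⟨C, hC, hop⟩ := exists_operator E
  let r : ℕ → ℝ := fun n => 1 / ((n : ℝ) + 1)
  have hr : ∀ n, 0 < r n := fun n => by positivity
  have hrlim : Tendsto r atTop (𝓝 0) := tendsto_one_div_add_atTop_nhds_zero_nat
  choose S hS1 hS2 using fun n => hop K hK o (r n) (hr n)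
  choose J hJ lam G g hlam hG hg hSf using hS1
  -- bound
  have hself : ∀ n (f : Lip0 K o), ‖S n f - f‖ ≤ C * ‖f‖ ∧
      ∀ x, |(S n f).fn x - f.fn x| ≤ C * ‖f‖ * r n := by
    intro n f
    refine hS2 n f ‖f‖ (norm_nonneg _) fun p => ⟨0, fun x y _ _ => ?_⟩
    have := f.abs_sub_le x y
    rw [zero_apply, sub_zero]
    rwa [Subtype.dist_eq, dist_eq_norm] at this
  have hSb : ∀ n, ‖S n‖ ≤ C + 1 := by
    intro n
    refine ContinuousLinearMap.opNorm_le_bound _ (by positivity) fun f => ?_
    have h1 := (hself n f).1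
    have h2 : ‖S n f‖ ≤ ‖S n f - f‖ + ‖f‖ := by
      have := norm_add_le (S n f - f) f
      rwa [sub_add_cancel] at this
    linarith
  -- convergence on smooth functions
  have hconv : ∀ (F : E → ℝ) (f : Lip0 K o), (∀ x ∈ K, ContDiffAt ℝ 1 F x) →
      (∀ x : K, f.fn x = F x - F o) → Tendsto (fun n => ‖S n f - f‖) atTop (𝓝 0) := by
    intro F f hF hf
    rw [Metric.tendsto_atTop]
    intro ε hε
    obtain ⟨δ, hδ, hδ2⟩ := uniform_diff hK hF (ε := ε / (2 * (C + 1))) (by positivity)
    obtain ⟨N, hN⟩ := Metric.tendsto_atTop.1 hrlim (δ / 4) (by positivity)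
    refine ⟨N, fun n hn => ?_⟩
    have h1 := hN n hn
    rw [Real.dist_eq, sub_zero, abs_of_pos (hr n)] at h1
    have h2 := (hS2 n f (ε / (2 * (C + 1))) (by positivity) fun p => by
      obtain ⟨l, hl⟩ := hδ2 p p.2
      refine ⟨l, fun x y hx hy => ?_⟩
      rw [hf, hf, sub_sub_sub_cancel_right]
      exact hl x y (by linarith) (by linarith)).1
    rw [Real.dist_eq, sub_zero, abs_of_nonneg (norm_nonneg _)]
    refine lt_of_le_of_lt h2 ?_
    have h3 : C * (ε / (2 * (C + 1))) ≤ (C + 1) * (ε / (2 * (C + 1))) :=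
      mul_le_mul_of_nonneg_right (by linarith) (by positivity)
    have h4 : (C + 1) * (ε / (2 * (C + 1))) = ε / 2 := by field_simp
    linarith
  -- operators on the free space
  have hcomp : ∀ n (μ : StrongDual ℝ (Lip0 K o)),
      let _ := hJ n; μ.comp (S n) = ∑ j, μ (g n j) • lam n j := by
    intro n μ
    let _ := hJ n
    ext f
    show μ (S n f) = _
    rw [hSf n f, map_sum, sum_apply]
    refine Finset.sum_congr rfl fun j _ => ?_
    rw [map_smul, smul_apply, smul_eq_mul, smul_eq_mul, mul_comm]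
  have hadj := fun n => exists_adjoint (S n) (fun x => by
    let _ := hJ n
    rw [hcomp n]
    refine Submodule.sum_mem _ fun j _ => Submodule.smul_mem _ _ ?_
    exact Submodule.le_topologicalClosure _ (hlam n j))
  choose T hT using hadj
  have hTb : ∀ n, ‖T n‖ ≤ C + 1 := fun n => (adjoint_norm_le (hT n)).trans (hSb n)
  have hTfin : ∀ n, FinRank (T n) := by
    intro n
    let _ := hJ n
    unfold FinRank
    have hfd : FiniteDimensional ℝ (Submodule.span ℝ (Set.range (lam n))) :=
      FiniteDimensional.span_of_finite ℝ (Set.finite_range _)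
    have h1 : (LinearMap.range (T n : FreeSp K o →ₗ[ℝ] FreeSp K o)).map (inc K o) ≤
        Submodule.span ℝ (Set.range (lam n)) := by
      rintro _ ⟨_, ⟨μ, rfl⟩, rfl⟩
      show inc K o (T n μ) ∈ _
      rw [hT, hcomp n]
      exact Submodule.sum_mem _ fun j _ => Submodule.smul_mem _ _ (Submodule.subset_span ⟨j, rfl⟩)
    have h2 : FiniteDimensional ℝ
        ((LinearMap.range (T n : FreeSp K o →ₗ[ℝ] FreeSp K o)).map (inc K o)) :=
      Submodule.finiteDimensional_of_le h1
    let e := Submodule.equivMapOfInjective (inc K o) inc_injective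
      (LinearMap.range (T n : FreeSp K o →ₗ[ℝ] FreeSp K o))
    exact Module.Finite.equiv e.symm
  have hTlim : ∀ μ, Tendsto (fun n => T n μ) atTop (𝓝 μ) := by
    refine tendsto_of_dense hTb dense_del ?_
    rintro _ ⟨x, rfl⟩
    rw [tendsto_iff_norm_sub_tendsto_zero]
    have h1 : Tendsto (fun n => C * r n) atTop (𝓝 (C * 0)) := hrlim.const_mul C
    rw [mul_zero] at h1
    refine squeeze_zero (fun _ => norm_nonneg _) (fun n => ?_) h1
    rw [← norm_inc, map_sub, hT, inc_del]
    refine ContinuousLinearMap.opNorm_le_bound _ (by have := hr n; positivity) fun f => ?_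
    have h2 := (hself n f).2 x
    show ‖(S n f).fn x - f.fn x‖ ≤ _
    rw [Real.norm_eq_abs]
    linarith
  have hTgood : ∀ m, RGood T (T m) := by
    intro m
    let _ := hJ m
    have h1 : ∀ n, ‖T m * T n - T m‖ ≤ ∑ j, ‖lam m j‖ * ‖S n (g m j) - g m j‖ := by
      intro n
      have h2 : ∀ μ, inc K o ((T m * T n - T m) μ) = (inc K o μ).comp ((S n).comp (S m) - S m) := by
        intro μ
        show inc K o (T m (T n μ) - T m μ) = _
        rw [map_sub, hT, hT, hT]
        ext f
        simp only [sub_apply, ContinuousLinearMap.comp_apply, map_sub]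
      have h3 : ‖T m * T n - T m‖ ≤ ‖(S n).comp (S m) - S m‖ := adjoint_norm_le h2
      refine h3.trans ?_
      refine ContinuousLinearMap.opNorm_le_bound _
        (Finset.sum_nonneg fun j _ => by positivity) fun f => ?_
      have h4 : ((S n).comp (S m) - S m) f = ∑ j, lam m j f • (S n (g m j) - g m j) := by
        show S n (S m f) - S m f = _
        rw [hSf m f, map_sum, ← Finset.sum_sub_distrib]
        refine Finset.sum_congr rfl fun j _ => ?_
        rw [map_smul, smul_sub]
      rw [h4, Finset.sum_mul]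
      refine norm_sum_le_of_le _ fun j _ => ?_
      rw [norm_smul]
      calc _ ≤ (‖lam m j‖ * ‖f‖) * ‖S n (g m j) - g m j‖ :=
            mul_le_mul_of_nonneg_right ((lam m j).le_opNorm f) (norm_nonneg _)
        _ = _ := by ring
    refine squeeze_zero (fun _ => norm_nonneg _) h1 ?_
    have h2 : Tendsto (fun n => ∑ j, ‖lam m j‖ * ‖S n (g m j) - g m j‖) atTop
        (𝓝 (∑ j, ‖lam m j‖ * 0)) :=
      tendsto_finsetSum _ fun j _ => (hconv (G m j) (g m j) (hG m j) (hg m j)).const_mul _
    simpa using h2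
  obtain ⟨R, hR1, hR2, hR3, hR4⟩ := commuting_of_asymptotic hTfin hTb hTlim hTgood
  exact ⟨R, hR1, ⟨_, hR2⟩, hR3, hR4⟩

/-- spaces with such operators are separable -/
lemma separable_of {X : Type*} [NormedAddCommGroup X] [NormedSpace ℝ X] {T : ℕ → X →L[ℝ] X}
    (h1 : ∀ n, FinRank (T n)) (h2 : ∀ x, Tendsto (fun n => T n x) atTop (𝓝 x)) :
    TopologicalSpace.SeparableSpace X := by
  have h3 : TopologicalSpace.IsSeparable
      (⋃ n, ((LinearMap.range (T n : X →ₗ[ℝ] X) : Submodule ℝ X) : Set X)) := by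
    refine TopologicalSpace.IsSeparable.iUnion fun n => ?_
    have h4 := h1 n
    unfold FinRank at h4
    have : TopologicalSpace.SeparableSpace
        ((LinearMap.range (T n : X →ₗ[ℝ] X) : Submodule ℝ X)) := by
      have := FiniteDimensional.proper ℝ ((LinearMap.range (T n : X →ₗ[ℝ] X) : Submodule ℝ X))
      infer_instance
    exact TopologicalSpace.IsSeparable.of_subtype _
  have h5 := h3.closure
  have h6 : closure (⋃ n, ((LinearMap.range (T n : X →ₗ[ℝ] X) : Submodule ℝ X) : Set X)) =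
      Set.univ := by
    rw [Set.eq_univ_iff_forall]
    intro x
    refine mem_closure_of_tendsto (h2 x) (Eventually.of_forall fun n => ?_)
    exact Set.mem_iUnion.2 ⟨n, x, rfl⟩
  rw [h6] at h5
  exact TopologicalSpace.isSeparable_univ_iff.1 h5

end Pool.Agent.W704.CB
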