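import Pool.Agent.H548R3.NoAP
import Pool.Agent.H548R3.PAP
import Pool.Agent.H548R3.PConstr
import Pool.Agent.H548R3.Snow

/-!
A discrete metric space, dense in the union of itself and a Banach space without the approximation
property.
-/

set_option autoImplicit false

open Set Filter Topology
open Pool.Agent.H548R3.PFree Pool.Agent.H548R3.NoAP
open Pool.Agent.Helper362.Hap

namespace Pool.Agent.W704.Disc

section

variable {X : Type} [NormedAddCommGroup X]

/-- separated dense nets -/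
lemma exists_net (X : Type) [NormedAddCommGroup X] {r : ℝ} (hr : 0 < r) :
    ∃ N : Set X, (∀ x ∈ N, ∀ y ∈ N, x ≠ y → r ≤ ‖x - y‖) ∧ ∀ x, ∃ y ∈ N, ‖x - y‖ ≤ r := by
  let P : Set (Set X) := {N | ∀ x ∈ N, ∀ y ∈ N, x ≠ y → r ≤ ‖x - y‖}
  obtain ⟨N, hN⟩ := zorn_subset P (by
    intro c hc hchain
    refine ⟨⋃₀ c, ?_, fun s hs => subset_sUnion_of_mem hs⟩
    rintro x ⟨s, hs, hxs⟩ y ⟨t, ht, hyt⟩ hxy
    rcases hchain.total hs ht with h | h
    · exact hc ht x (h hxs) y hyt hxy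
    · exact hc hs x hxs y (h hyt) hxy)
  refine ⟨N, hN.prop, fun x => ?_⟩
  by_contra hcon
  push Not at hcon
  have hx : x ∉ N := fun hx => by
    have := hcon x hx
    rw [sub_self, norm_zero] at this
    linarith
  have h1 : insert x N ∈ P := by
    rintro y (rfl | hy) z (rfl | hz) hyz
    · exact absurd rfl hyz
    · exact (hcon z hz).le
    · rw [norm_sub_rev]; exact (hcon y hy).le
    · exact hN.prop y hy z hz hyz
  exact hx (hN.le_of_ge h1 (subset_insert x N) (mem_insert x N))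

/-- the discrete space -/
def DS (N : ℕ → Set X) : Type := {q : X × ℝ // ∃ n : ℕ, q.2 = (1 / 2) ^ n ∧ q.1 ∈ N n}

instance (N : ℕ → Set X) : MetricSpace (DS N) :=
  inferInstanceAs (MetricSpace {q : X × ℝ // ∃ n : ℕ, q.2 = (1 / 2) ^ n ∧ q.1 ∈ N n})

lemma DS.dist_eq {N : ℕ → Set X} (a b : DS N) :
    dist a b = max (dist a.1.1 b.1.1) (dist a.1.2 b.1.2) := rfl

lemma DS.discrete {N : ℕ → Set X}
    (hN : ∀ n, ∀ x ∈ N n, ∀ y ∈ N n, x ≠ y → (1 / 2 : ℝ) ^ n ≤ ‖x - y‖) (a : DS N) :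
    ∃ r : ℝ, 0 < r ∧ ∀ b : DS N, dist b a < r → b = a := by
  obtain ⟨⟨x, s⟩, n, hs, hx⟩ := a
  refine ⟨(1 / 2) ^ (n + 1), by positivity, ?_⟩
  rintro ⟨⟨y, t⟩, m, ht, hy⟩ hd
  have hd' : max (dist y x) (dist t s) < (1 / 2) ^ (n + 1) := hd
  obtain ⟨h1, h2⟩ := max_lt_iff.1 hd'
  have h1' : dist y x < (1 / 2) ^ (n + 1) := h1
  have h2' : dist t s < (1 / 2) ^ (n + 1) := h2
  have hs' : s = (1 / 2) ^ n := hs
  have ht' : t = (1 / 2) ^ m := ht
  have hx' : x ∈ N n := hx
  have hy' : y ∈ N m := hy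
  rw [Real.dist_eq, hs', ht', abs_lt] at h2'
  have hpos : (0 : ℝ) < (1 / 2) ^ n := by positivity
  have hmn : m = n := by
    rcases lt_trichotomy m n with h | h | h
    · exfalso
      have h3 : (1 / 2 : ℝ) ^ n ≤ (1 / 2) ^ (m + 1) :=
        pow_le_pow_of_le_one (by norm_num) (by norm_num) h
      have h4 := h2'.2
      rw [pow_succ] at h3 h4
      linarith
    · exact h
    · exfalso
      have h3 : (1 / 2 : ℝ) ^ m ≤ (1 / 2) ^ (n + 1) :=
        pow_le_pow_of_le_one (by norm_num) (by norm_num) h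
      have h4 := h2'.1
      rw [pow_succ] at h3 h4
      linarith
  subst hmn
  have hxy : y = x := by
    by_contra hne
    have h3 := hN m y hy' x hx' hne
    rw [dist_eq_norm, pow_succ] at h1'
    linarith
  have hst : t = s := by rw [hs', ht']
  subst hxy
  subst hst
  rfl

end

/-- The Lipschitz free `p`-spaces over the discrete space fail the approximation property. -/
theorem not_hasAP {N : ℕ → Set E}
    (hN2 : ∀ n, ∀ x, ∃ y ∈ N n, ‖x - y‖ ≤ (1 / 2 : ℝ) ^ n) {p : ℝ} (h0 : 0 < p) (h1 : p ≤ 1)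
    (o : DS N) (Z : Type) [NormedAddCommGroup Z] [Module ℝ Z] (δ : DS N → Z)
    (h : IsLipschitzFree p (DS N) o Z δ) : ¬ HasAP p Z := by
  have hp : Fact (0 < p ∧ p ≤ 1) := ⟨h0, h1⟩
  have hcomp : CompleteSpace Z := h.banach.2
  choose y hyN hy using hN2
  let a : ℕ → E → DS N := fun n x => ⟨(y n x, (1 / 2) ^ n), n, rfl, hyN n x⟩
  have hnorm : ∀ u v : DS N, ‖δ u - δ v‖ = dist u v ^ p := by
    intro u v
    rw [← h.isometric, pnorm_rpow]
  -- the section
  have hdist : ∀ n x x', dist (a n x) (a n x') ≤ ‖x - x'‖ + 2 * (1 / 2) ^ n := by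
    intro n x x'
    rw [DS.dist_eq]
    have h2 : dist (a n x).1.2 (a n x').1.2 = 0 := by
      show dist ((1 / 2 : ℝ) ^ n) ((1 / 2) ^ n) = 0
      exact dist_self _
    rw [h2]
    refine max_le ?_ (by positivity)
    show dist (y n x) (y n x') ≤ _
    rw [dist_eq_norm]
    have h3 : y n x - y n x' = (x - x') - (x - y n x) + (x' - y n x') := by abel
    rw [h3]
    have h4 := norm_add_le ((x - x') - (x - y n x)) (x' - y n x')
    have h5 := norm_sub_le (x - x') (x - y n x)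
    have h6 := hy n x
    have h7 := hy n x'
    linarith
  have hstep : ∀ n x, dist (a n x) (a (n + 1) x) ≤ 2 * (1 / 2) ^ n := by
    intro n x
    rw [DS.dist_eq]
    have hpos : (0 : ℝ) < (1 / 2) ^ n := by positivity
    refine max_le ?_ ?_
    · show dist (y n x) (y (n + 1) x) ≤ _
      rw [dist_eq_norm]
      have h3 : y n x - y (n + 1) x = (x - y (n + 1) x) - (x - y n x) := by abel
      rw [h3]
      have h4 := norm_sub_le (x - y (n + 1) x) (x - y n x)
      have h6 := hy n x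
      have h7 := hy (n + 1) x
      rw [pow_succ] at h7
      linarith
    · show dist ((1 / 2 : ℝ) ^ n) ((1 / 2) ^ (n + 1)) ≤ _
      rw [Real.dist_eq, pow_succ]
      rw [abs_of_nonneg (by linarith)]
      linarith
  have hρ : ((1 / 2 : ℝ) ^ p) < 1 := Real.rpow_lt_one (by norm_num) (by norm_num) h0
  have hcau : ∀ x, CauchySeq fun n => δ (a n x) := by
    intro x
    refine cauchySeq_of_le_geometric ((1 / 2 : ℝ) ^ p) (2 ^ p) hρ fun n => ?_
    rw [dist_eq_norm, hnorm]
    refine (Real.rpow_le_rpow dist_nonneg (hstep n x) h0.le).trans (le_of_eq ?_)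
    rw [Real.mul_rpow (by norm_num) (by positivity), ← Real.rpow_natCast, ← Real.rpow_mul
      (by norm_num), mul_comm (n : ℝ) p, Real.rpow_mul (by norm_num), Real.rpow_natCast]
  choose σ₀ hσ₀ using fun x => cauchySeq_tendsto_of_complete (hcau x)
  let e : E := o.1.1
  let σ : E → Z := fun x => σ₀ (x + e)
  have hσ : ∀ x, Tendsto (fun n => δ (a n (x + e))) atTop (𝓝 (σ x)) := fun x => hσ₀ (x + e)
  have hhalf : Tendsto (fun n : ℕ => (1 / 2 : ℝ) ^ n) atTop (𝓝 0) :=
    tendsto_pow_atTop_nhds_zero_of_lt_one (by norm_num) (by norm_num)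
  have hσL : ∀ x x', ‖σ x - σ x'‖ ≤ (1 * ‖x - x'‖) ^ p := by
    intro x x'
    rw [one_mul]
    have h2 : Tendsto (fun n => ‖δ (a n (x + e)) - δ (a n (x' + e))‖) atTop
        (𝓝 ‖σ x - σ x'‖) := ((hσ x).sub (hσ x')).norm
    have h3 : Tendsto (fun n : ℕ => (‖x - x'‖ + 2 * (1 / 2 : ℝ) ^ n) ^ p) atTop
        (𝓝 ((‖x - x'‖ + 2 * 0) ^ p)) := by
      refine Tendsto.rpow_const ?_ (Or.inr h0.le)
      exact tendsto_const_nhds.add (hhalf.const_mul 2)
    rw [mul_zero, add_zero] at h3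
    refine le_of_tendsto_of_tendsto' h2 h3 fun n => ?_
    rw [hnorm]
    refine Real.rpow_le_rpow dist_nonneg ?_ h0.le
    have := hdist n (x + e) (x' + e)
    rwa [add_sub_add_right_eq_sub] at this
  -- the projection
  obtain ⟨β, hβ, -⟩ := h.lift (Snow p E) (isPBanach_snow p E)
    (fun q => (toSnow (q.1.1 - e) : Snow p E)) (by
      show (toSnow (o.1.1 - e) : Snow p E) = 0
      exact sub_self e)
    ⟨1, fun u v => by
      rw [pnorm_snow, one_mul]
      show ‖(u.1.1 - e) - (v.1.1 - e)‖ ≤ _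
      rw [sub_sub_sub_cancel_right, ← dist_eq_norm, DS.dist_eq]
      exact le_max_left _ _⟩
  refine not_hasAP_of_section (X := E) h0 h.banach.1 σ zero_le_one hσL
    ((snowCLM p E).comp β) (fun x => ?_) (exists_data dat)
  have h2 : Tendsto (fun n => ((snowCLM p E).comp β) (δ (a n (x + e)))) atTop
      (𝓝 (((snowCLM p E).comp β) (σ x))) :=
    (((snowCLM p E).comp β).continuous.tendsto _).comp (hσ x)
  have h3 : ∀ n, ((snowCLM p E).comp β) (δ (a n (x + e))) = y n (x + e) - e := by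
    intro n
    show ofSnow (β (δ (a n (x + e)))) = _
    rw [hβ]
    rfl
  have h4 : Tendsto (fun n => y n (x + e) - e) atTop (𝓝 x) := by
    rw [tendsto_iff_norm_sub_tendsto_zero]
    refine squeeze_zero (fun _ => norm_nonneg _) (fun n => ?_) hhalf
    have h5 : y n (x + e) - e - x = -((x + e) - y n (x + e)) := by abel
    rw [h5, norm_neg]
    exact hy n (x + e)
  refine tendsto_nhds_unique ?_ h4
  exact h2.congr h3

/-- a discrete metric space whose Lipschitz free `p`-spaces all fail the approximation property -/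
theorem exists_discrete : ∃ (M : Type) (_ : MetricSpace M),
    Nonempty M ∧ (∀ x : M, ∃ r : ℝ, 0 < r ∧ ∀ y : M, dist y x < r → y = x) ∧
    ∀ (o : M) (p : ℝ), 0 < p → p ≤ 1 →
      (∃ (Z : Type) (_ : NormedAddCommGroup Z) (_ : Module ℝ Z) (δ : M → Z),
        IsLipschitzFree p M o Z δ) ∧
      ∀ (Z : Type) [NormedAddCommGroup Z] [Module ℝ Z] (δ : M → Z),
        IsLipschitzFree p M o Z δ → ¬ HasAP p Z := by
  choose N hN1 hN2 using fun n : ℕ => exists_net E (r := (1 / 2 : ℝ) ^ n) (by positivity)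
  refine ⟨DS N, inferInstance, ?_, DS.discrete hN1, fun o p h0 h1 => ⟨?_, ?_⟩⟩
  · obtain ⟨y, hy, -⟩ := hN2 0 0
    exact ⟨⟨(y, (1 / 2) ^ 0), 0, rfl, hy⟩⟩
  · have hp : Fact (0 < p ∧ p ≤ 1) := ⟨h0, h1⟩
    exact ⟨FF p (DS N), inferInstance, inferInstance, fun x => cl x o, isLipschitzFree o⟩
  · intro Z _ _ δ h
    exact not_hasAP hN2 h0 h1 o Z δ h

end Pool.Agent.W704.Disc
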